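import Mathlib
open Set Cardinal
namespace Pool.Agent.Results.MP_71be7b_lc.Count

def axisX : Set (ℝ × ℝ) := {p | p.2 = 0}
def axisY : Set (ℝ × ℝ) := {p | p.1 = 0}
def pr1 (S : Set (ℝ × ℝ)) : Set (ℝ × ℝ) := {p | p.2 = 0 ∧ ∃ y, (p.1, y) ∈ S}
def pr2 (S : Set (ℝ × ℝ)) : Set (ℝ × ℝ) := {p | p.1 = 0 ∧ ∃ x, (x, p.2) ∈ S}
def tens (A B : Set (ℝ × ℝ)) : Set (ℝ × ℝ) := {p | (p.1, 0) ∈ A ∧ (0, p.2) ∈ B}

def IsProj (F : Set (Set (ℝ × ℝ))) : Prop :=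
  (∀ A ∈ F, Aᶜ ∈ F ∧ pr1 A ∈ F ∧ pr2 A ∈ F) ∧ (∀ A ∈ F, ∀ B ∈ F, A ∪ B ∈ F) ∧
    ∀ A ∈ F, ∀ B ∈ F, A ⊆ axisX → B ⊆ axisY → tens A B ∈ F

def gen {k : ℕ} (S : Fin k → Set (ℝ × ℝ)) : Set (Set (ℝ × ℝ)) :=
  ⋂₀ {F | IsProj F ∧ ∀ i, S i ∈ F}

def Iso (F G : Set (Set (ℝ × ℝ))) : Prop :=
  ∃ φ : Set (ℝ × ℝ) → Set (ℝ × ℝ), BijOn φ F G ∧
    (∀ A ∈ F, φ Aᶜ = (φ A)ᶜ ∧ φ (pr1 A) = pr1 (φ A) ∧ φ (pr2 A) = pr2 (φ A)) ∧
    (∀ A ∈ F, ∀ B ∈ F, φ (A ∪ B) = φ A ∪ φ B) ∧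
    ∀ A ∈ F, ∀ B ∈ F, A ⊆ axisX → B ⊆ axisY → φ (tens A B) = tens (φ A) (φ B)

inductive Tm : Type
  | var (i : ℕ) | co (t : Tm) | p1 (t : Tm) | p2 (t : Tm) | un (s t : Tm) | te (s t : Tm)

def Tm.enc : Tm → ℕ
  | .var i => Nat.pair 0 i
  | .co t => Nat.pair 1 t.enc
  | .p1 t => Nat.pair 2 t.enc
  | .p2 t => Nat.pair 3 t.enc
  | .un s t => Nat.pair 4 (Nat.pair s.enc t.enc)
  | .te s t => Nat.pair 5 (Nat.pair s.enc t.enc)

lemma enc_inj : Function.Injective Tm.enc := by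
  intro s
  induction s with
  | var i => intro t h; cases t <;> simp_all [Tm.enc]
  | co a ih => intro t h; cases t <;> simp [Tm.enc] at h; rw [ih h]
  | p1 a ih => intro t h; cases t <;> simp [Tm.enc] at h; rw [ih h]
  | p2 a ih => intro t h; cases t <;> simp [Tm.enc] at h; rw [ih h]
  | un a b ih ih' => intro t h; cases t <;> simp [Tm.enc] at h; rw [ih h.1, ih' h.2]
  | te a b ih ih' => intro t h; cases t <;> simp [Tm.enc] at h; rw [ih h.1, ih' h.2]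

instance : Countable Tm := enc_inj.countable

def ev (S : ℕ → Set (ℝ × ℝ)) : Tm → Set (ℝ × ℝ)
  | .var i => S i
  | .co t => (ev S t)ᶜ
  | .p1 t => pr1 (ev S t)
  | .p2 t => pr2 (ev S t)
  | .un s t => ev S s ∪ ev S t
  | .te s t => tens (pr1 (ev S s)) (pr2 (ev S t))

lemma pr1_sub (A) : pr1 A ⊆ axisX := fun _ h => h.1
lemma pr2_sub (A) : pr2 A ⊆ axisY := fun _ h => h.1
lemma pr1_eq {A} (h : A ⊆ axisX) : pr1 A = A := by
  ext ⟨x, y⟩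
  constructor
  · rintro ⟨h1, z, h2⟩
    have h3 : z = 0 := h h2
    simp only at h1
    rw [h1, ← h3]; exact h2
  · exact fun h1 => ⟨h h1, y, h1⟩
lemma pr2_eq {A} (h : A ⊆ axisY) : pr2 A = A := by
  ext ⟨x, y⟩
  constructor
  · rintro ⟨h1, z, h2⟩
    have h3 : z = 0 := h h2
    simp only at h1
    rw [h1, ← h3]; exact h2
  · exact fun h1 => ⟨h h1, x, h1⟩

lemma ev_mem {F} (hF : IsProj F) {S : ℕ → Set (ℝ × ℝ)} (hS : ∀ i, S i ∈ F) (t) : ev S t ∈ F := by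
  induction t with
  | var i => exact hS i
  | co t ih => exact (hF.1 _ ih).1
  | p1 t ih => exact (hF.1 _ ih).2.1
  | p2 t ih => exact (hF.1 _ ih).2.2
  | un s t ih ih' => exact hF.2.1 _ ih _ ih'
  | te s t ih ih' => exact hF.2.2 _ (hF.1 _ ih).2.1 _ (hF.1 _ ih').2.2 (pr1_sub _) (pr2_sub _)

lemma range_proj (S) : IsProj (range (ev S)) := by
  refine ⟨?_, ?_, ?_⟩
  · rintro _ ⟨t, rfl⟩
    exact ⟨⟨.co t, rfl⟩, ⟨.p1 t, rfl⟩, ⟨.p2 t, rfl⟩⟩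
  · rintro _ ⟨s, rfl⟩ _ ⟨t, rfl⟩
    exact ⟨.un s t, rfl⟩
  · rintro _ ⟨s, rfl⟩ _ ⟨t, rfl⟩ h h'
    exact ⟨.te s t, by rw [ev, pr1_eq h, pr2_eq h']⟩

lemma gen_eq {k : ℕ} (S : Fin (k + 1) → Set (ℝ × ℝ)) :
    gen S = range (ev fun i => S (Fin.ofNat _ i)) := by
  apply Subset.antisymm
  · exact sInter_subset_of_mem ⟨range_proj _, fun i => ⟨.var i, by simp [ev]⟩⟩
  · rintro _ ⟨t, rfl⟩ F hF
    exact ev_mem hF.1 (fun i => hF.2 _) t

lemma iso_of_ker {S S' : ℕ → Set (ℝ × ℝ)} (h : ∀ s t, ev S s = ev S t ↔ ev S' s = ev S' t) :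
    Iso (range (ev S)) (range (ev S')) := by
  classical
  let φ : Set (ℝ × ℝ) → Set (ℝ × ℝ) := fun A => if h : ∃ t, ev S t = A then ev S' h.choose else ∅
  have hφ : ∀ t, φ (ev S t) = ev S' t := by
    intro t
    have h1 : ∃ t', ev S t' = ev S t := ⟨t, rfl⟩
    simp only [φ, h1, dif_pos]
    exact (h _ _).mp h1.choose_spec
  refine ⟨φ, ⟨?_, ?_, ?_⟩, ?_, ?_, ?_⟩
  · rintro _ ⟨t, rfl⟩; exact ⟨t, (hφ t).symm⟩
  · rintro _ ⟨s, rfl⟩ _ ⟨t, rfl⟩ h1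
    rw [hφ, hφ] at h1
    exact (h _ _).mpr h1
  · rintro _ ⟨t, rfl⟩; exact ⟨_, ⟨t, rfl⟩, hφ t⟩
  · rintro _ ⟨t, rfl⟩
    rw [hφ]
    exact ⟨hφ (.co t), hφ (.p1 t), hφ (.p2 t)⟩
  · rintro _ ⟨s, rfl⟩ _ ⟨t, rfl⟩
    rw [hφ, hφ]
    exact hφ (.un s t)
  · rintro _ ⟨s, rfl⟩ _ ⟨t, rfl⟩ h1 h2
    have h3 := hφ (.te s t)
    have h4 : ev S' (.p1 s) = ev S' s := (h _ _).mp (pr1_eq h1)
    have h5 : ev S' (.p2 t) = ev S' t := (h _ _).mp (pr2_eq h2)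
    simp only [ev] at h3 h4 h5
    rw [pr1_eq h1, pr2_eq h2, h4, h5] at h3
    rw [hφ, hφ, h3]

def Inv (F : Set (Set (ℝ × ℝ))) : Set (Set Tm) := (fun U => {t | ev (fun _ => U) t = ∅}) '' F

lemma inv_iso {F G} (hF : IsProj F) (h : Iso F G) : Inv F = Inv G := by
  obtain ⟨φ, h1, h2, h3, h4⟩ := h
  have key : ∀ U ∈ F, {t | ev (fun _ => U) t = ∅} = {t | ev (fun _ => φ U) t = ∅} := by
    intro U hU
    have hm := ev_mem hF (S := fun _ => U) fun _ => hU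
    have e : ∀ t, φ (ev (fun _ => U) t) = ev (fun _ => φ U) t := by
      intro t
      induction t with
      | var i => rfl
      | co t ih => rw [ev, ev, (h2 _ (hm t)).1, ih]
      | p1 t ih => rw [ev, ev, (h2 _ (hm t)).2.1, ih]
      | p2 t ih => rw [ev, ev, (h2 _ (hm t)).2.2, ih]
      | un s t ih ih' => rw [ev, ev, h3 _ (hm s) _ (hm t), ih, ih']
      | te s t ih ih' =>
        rw [ev, ev, h4 (pr1 _) (hm (.p1 s)) (pr2 _) (hm (.p2 t)) (pr1_sub _) (pr2_sub _), (h2 _ (hm s)).2.1,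
          (h2 _ (hm t)).2.2, ih, ih']
    have e0 : ∀ V, ev (fun _ => V) (.co (.un (.var 0) (.co (.var 0)))) = ∅ := fun V => by simp [ev]
    ext t
    simp only [mem_ofPred_eq]
    constructor
    · intro h
      have h5 := e (.co (.un (.var 0) (.co (.var 0))))
      rw [e0, e0] at h5
      rw [← e, h, h5]
    · intro h
      rw [← e0 U]
      refine h1.injOn (hm _) (hm _) ?_
      rw [e, e, h, e0]
  ext K
  constructor
  · rintro ⟨U, hU, rfl⟩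
    exact ⟨φ U, h1.mapsTo hU, (key U hU).symm⟩
  · rintro ⟨V, hV, rfl⟩
    obtain ⟨U, hU, rfl⟩ := h1.surjOn hV
    exact ⟨U, hU, key U hU⟩

def ST (T : Set ℕ) : Set (ℝ × ℝ) :=
  {p | (p.2 = 0 ∧ ∃ n ∈ T, p.1 = (n + 1 : ℕ)) ∨ ∃ i j : ℕ, p.1 = i ∧ p.2 = j + 1 ∧ i ≤ j}

def inter (s t : Tm) : Tm := .co (.un (.co s) (.co t))
def all : Tm := .un (.var 0) (.co (.var 0))
def off : Tm := inter (.var 0) (.co (.p1 all))
def a : ℕ → Tm
  | 0 => .p1 off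
  | n + 1 => inter (.p1 off) (.p1 (inter (.te all (inter off (.te (a n) all))) (.co (.var 0))))

lemma ev_inter (S s t) : ev S (inter s t) = ev S s ∩ ev S t := by simp [inter, ev]
lemma ev_all (S) : ev S all = Set.univ := by simp [all, ev]
lemma ev_off (T) : ev (fun _ => ST T) off = {p : ℝ × ℝ | ∃ i j : ℕ, p.1 = i ∧ p.2 = j + 1 ∧ i ≤ j} := by
  rw [off, ev_inter]
  ext ⟨x, y⟩
  simp only [ev, ev_all, ST, pr1, mem_inter_iff, mem_ofPred_eq, mem_compl_iff, mem_univ,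
    exists_const, and_true]
  constructor
  · rintro ⟨h | h, h'⟩
    · exact absurd h.1 h'
    · exact h
  · rintro ⟨i, j, h1, h2, h3⟩
    exact ⟨Or.inr ⟨i, j, h1, h2, h3⟩, by rw [h2]; positivity⟩

lemma ev_a (T n) : ev (fun _ => ST T) (a n) = {p : ℝ × ℝ | p.2 = 0 ∧ ∃ i : ℕ, p.1 = i ∧ n ≤ i} := by
  have h0 : pr1 (ev (fun _ => ST T) off) = {p : ℝ × ℝ | p.2 = 0 ∧ ∃ i : ℕ, p.1 = i} := by
    rw [ev_off]
    ext ⟨x, y⟩
    simp only [pr1, mem_ofPred_eq]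
    exact and_congr_right fun _ =>
      ⟨fun ⟨_, i, _, h, _⟩ => ⟨i, h⟩, fun ⟨i, h⟩ => ⟨_, i, i, h, rfl, le_rfl⟩⟩
  induction n with
  | zero => simp [a, ev, h0]
  | succ n ih =>
    simp only [a, ev_inter, ev, h0, ih, ev_all]
    rw [ev_off]
    ext ⟨x, y⟩
    simp only [pr1, pr2, tens, ST, mem_inter_iff, mem_ofPred_eq, mem_compl_iff, mem_univ,
      exists_const, and_true, true_and, not_or]
    constructor
    · rintro ⟨⟨h1, i, rfl⟩, -, z, ⟨w, ⟨i', j, rfl, rfl, h2⟩, _, -, i'', h3, h4⟩, -, h5⟩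
      refine ⟨h1, i, rfl, ?_⟩
      have h6 : i' = i'' := by exact_mod_cast h3
      by_contra h7
      exact h5 ⟨i, j, rfl, rfl, by omega⟩
    · rintro ⟨h1, i, rfl, h2⟩
      refine ⟨⟨h1, i, rfl⟩, h1, n + 1, ⟨n, ⟨n, n, rfl, rfl, le_rfl⟩, 0, rfl, n, rfl, le_rfl⟩, ?_, ?_⟩
      · rintro ⟨h, -⟩
        exact absurd h (by positivity)
      · rintro ⟨i', j, h3, h4, h5⟩
        have h6 : i = i' := by exact_mod_cast h3
        have h7 : n = j := by exact_mod_cast add_right_cancel h4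
        omega

lemma test (T n) :
    ev (fun _ => ST T) (inter (.var 0) (inter (a (n + 1)) (.co (a (n + 2))))) = ∅ ↔ n ∉ T := by
  simp only [ev_inter, ev, ev_a, eq_empty_iff_forall_notMem]
  constructor
  · intro h hn
    refine h (((n + 1 : ℕ) : ℝ), 0) ⟨Or.inl ⟨rfl, n, hn, rfl⟩, ⟨rfl, _, rfl, le_rfl⟩, ?_⟩
    rintro ⟨-, i, h1, h2⟩
    have : n + 1 = i := Nat.cast_injective (R := ℝ) h1
    omega
  · rintro hn ⟨x, y⟩ ⟨h1 | ⟨i, j, -, h1, -⟩, ⟨h2, i', h3, h4⟩, h5⟩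
    · obtain ⟨-, m, hm, h6⟩ := h1
      have h7 : i' = m + 1 := by exact_mod_cast h3.symm.trans h6
      by_cases h8 : m = n
      · exact hn (h8 ▸ hm)
      · exact h5 ⟨h2, i', h3, by omega⟩
    · rw [h2] at h1
      exact absurd h1.symm (by positivity)

theorem result (k : ℕ) (hk : 1 ≤ k) :
    #(Quot fun F G : {F : Set (Set (ℝ × ℝ)) // ∃ S : Fin k → Set (ℝ × ℝ), F = gen S} =>
      Iso F.1 G.1) = 𝔠 := by
  obtain ⟨k, rfl⟩ : ∃ m, k = m + 1 := ⟨k - 1, by omega⟩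
  set r := fun F G : {F : Set (Set (ℝ × ℝ)) // ∃ S : Fin (k + 1) → Set (ℝ × ℝ), F = gen S} =>
      Iso F.1 G.1 with hr
  have hex : ∀ F : {F : Set (Set (ℝ × ℝ)) // ∃ S : Fin (k + 1) → Set (ℝ × ℝ), F = gen S},
      ∃ S, F.1 = range (ev S) := fun ⟨_, S, h⟩ => ⟨_, h.trans (gen_eq S)⟩
  choose S hS using hex
  apply le_antisymm
  · have : Function.Injective fun c : Quot r =>
        {z : Tm × Tm | ev (S c.out) z.1 = ev (S c.out) z.2} := by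
      intro c c' h
      rw [← c.out_eq, ← c'.out_eq]
      refine Quot.sound ?_
      simp only [hr, hS]
      exact iso_of_ker fun s t => Set.ext_iff.mp h (s, t)
    refine (mk_le_of_injective this).trans ?_
    rw [mk_set, ← two_power_aleph0]
    exact power_le_power_left two_ne_zero mk_le_aleph0
  · let I : Quot r → Set (Set Tm) := Quot.lift (fun F => Inv F.1)
      fun F G h => inv_iso (hS F ▸ range_proj _) h
    have hI : ∀ c, (I c).Countable := by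
      rintro ⟨F⟩
      refine Countable.image ?_ _
      rw [hS F]
      exact countable_range _
    have h1 : #(Set ℕ) ≤ #(Σ c : Quot r, I c) := by
      refine mk_le_of_injective (f := fun T => ⟨Quot.mk r ⟨gen fun _ => ST T, _, rfl⟩,
        {t | ev (fun _ => ST T) t = ∅}, ST T, fun F hF => hF.2 0, rfl⟩) ?_
      intro T T' h
      have h2 := congrArg (fun z : (Σ c : Quot r, I c) => (z.2 : Set Tm)) h
      ext n
      rw [← not_iff_not, ← test, ← test]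
      exact Set.ext_iff.mp h2 _
    rw [mk_sigma, mk_set_nat] at h1
    have h2 := h1.trans (sum_le_sum _ (fun _ => ℵ₀) fun c => le_aleph0_iff_set_countable.mpr (hI c))
    rw [sum_const'] at h2
    by_contra h
    exact absurd h2 (not_le.mpr (mul_lt_of_lt aleph0_le_continuum (not_le.mp h) aleph0_lt_continuum))

end Pool.Agent.Results.MP_71be7b_lc.Count
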